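import Mathlib

/-!
# The coset tree of a free factor and the multiplications `x_i -> u_i⁻¹ x_i v_i`
-/

set_option autoImplicit false
set_option linter.unusedSectionVars false

namespace Pool.Agent.H61.CA

variable {κ ι : Type} [DecidableEq κ] [DecidableEq ι]

/-- The free factor. -/
abbrev A (κ : Type) := FreeGroup κ

/-- The free group. -/
abbrev F (κ ι : Type) := FreeGroup (κ ⊕ ι)

/-- The inclusion of the free factor. -/
def inc : A κ →* F κ ι := FreeGroup.lift (fun a => FreeGroup.of (Sum.inl a))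

/-- The other generators. -/
def x (i : ι) : F κ ι := FreeGroup.of (Sum.inr i)

/-- Letters. -/
abbrev S (ι : Type) := ι × Bool

/-- The inverse letter. -/
def iv (s : S ι) : S ι := (s.1, !s.2)

@[simp] theorem iv_iv (s : S ι) : iv (iv s) = s := by
  obtain ⟨i, b⟩ := s
  simp [iv]

/-- The group element of a letter. -/
def xl (s : S ι) : F κ ι := if s.2 then x s.1 else (x s.1)⁻¹

@[simp] theorem xl_iv (s : S ι) : (xl (iv s) : F κ ι) = (xl s)⁻¹ := by
  obtain ⟨i, b⟩ := s
  cases b <;> simp [iv, xl]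

/-- The label at the start of a letter. -/
def dep (k : ι → A κ × A κ) (s : S ι) : A κ := if s.2 then (k s.1).1 else (k s.1).2

/-- The label at the end of a letter. -/
def arr (k : ι → A κ × A κ) (s : S ι) : A κ := if s.2 then (k s.1).2 else (k s.1).1

theorem dep_iv (k : ι → A κ × A κ) (s : S ι) : dep k (iv s) = arr k s := by
  obtain ⟨i, b⟩ := s
  cases b <;> simp [iv, dep, arr]

/-- The endomorphism that fixes the free factor and takes `x_i` to `(k i).1⁻¹ x_i (k i).2`. -/
def tw (k : ι → A κ × A κ) : F κ ι →* F κ ι :=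
  FreeGroup.lift (fun o => match o with
    | Sum.inl a => FreeGroup.of (Sum.inl a)
    | Sum.inr i => (inc (k i).1)⁻¹ * x i * inc (k i).2)

theorem hom_ext' {G : Type} [Group G] {f g : F κ ι →* G} (h1 : ∀ a : A κ, f (inc a) = g (inc a))
    (h2 : ∀ i, f (x i) = g (x i)) : f = g := by
  apply FreeGroup.ext_hom
  intro o
  cases o with
  | inl a =>
    have := h1 (FreeGroup.of a)
    simpa [inc] using this
  | inr i => exact h2 i

@[simp] theorem tw_inc (k : ι → A κ × A κ) (a : A κ) : tw k (inc a : F κ ι) = inc a := by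
  have h : (tw k).comp (inc : A κ →* F κ ι) = inc := by
    apply FreeGroup.ext_hom
    intro a
    simp [tw, inc]
  exact DFunLike.congr_fun h a

@[simp] theorem tw_x (k : ι → A κ × A κ) (i : ι) : tw k (x i : F κ ι) = (inc (k i).1)⁻¹ * x i * inc (k i).2 := by
  simp [tw, x]

theorem tw_xl (k : ι → A κ × A κ) (s : S ι) : tw k (xl s : F κ ι) = (inc (dep k s))⁻¹ * xl s * inc (arr k s) := by
  obtain ⟨i, b⟩ := s
  cases b <;> simp [xl, dep, arr, mul_assoc]

/-- The letter `s` can be put in front of the list `l` without cancellation. -/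
def Ok (s : S ι) (l : List (A κ × S ι)) : Prop :=
  match l with
  | [] => True
  | q :: _ => ¬ (q.1 = 1 ∧ q.2 = iv s)

instance (s : S ι) (l : List (A κ × S ι)) : Decidable (Ok s l) := by
  cases l with
  | nil => exact isTrue trivial
  | cons q l => exact inferInstanceAs (Decidable (¬ (q.1 = 1 ∧ q.2 = iv s)))

/-- Reduced lists: the list `(a_0, s_1), (a_1, s_2), ...` stands for `a_0 s_1 a_1 s_2 ...`. -/
def Red : List (A κ × S ι) → Prop
  | [] => True
  | p :: l => Ok p.2 l ∧ Red l

/-- The action of the free factor. -/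
def T (a : A κ) : List (A κ × S ι) → List (A κ × S ι)
  | [] => []
  | p :: l => (a * p.1, p.2) :: l

/-- The action of a letter. -/
def X (s : S ι) (l : List (A κ × S ι)) : List (A κ × S ι) := if Ok s l then (1, s) :: l else l.tail

theorem red_T (a : A κ) (l : List (A κ × S ι)) (h : Red l) : Red (T a l) := by
  cases l with
  | nil => exact h
  | cons p l => exact h

theorem red_X (s : S ι) (l : List (A κ × S ι)) (h : Red l) : Red (X s l) := by
  unfold X
  split_ifs with h1
  · exact ⟨h1, h⟩
  · cases l with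
    | nil => exact h
    | cons p l => exact h.2

theorem T_T (a b : A κ) (l : List (A κ × S ι)) : T a (T b l) = T (a * b) l := by
  cases l with
  | nil => rfl
  | cons p l => simp [T, mul_assoc]

theorem T_one (l : List (A κ × S ι)) : T 1 l = l := by
  cases l with
  | nil => rfl
  | cons p l => simp [T]

theorem X_X (s : S ι) (l : List (A κ × S ι)) (h : Red l) : X (iv s) (X s l) = l := by
  unfold X
  by_cases h1 : Ok s l
  · simp only [h1, if_true]
    have : ¬ Ok (iv s) ((1, s) :: l) := by
      simp [Ok]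
    simp [this]
  · simp only [h1, if_false]
    cases l with
    | nil => exact absurd trivial h1
    | cons p l =>
      have h2 : p.1 = 1 ∧ p.2 = iv s := by
        by_contra h3
        exact h1 h3
      have h3 : Ok (iv s) l := by
        rw [← h2.2]
        exact h.1
      simp only [List.tail_cons, h3, if_true]
      rw [← h2.2, ← h2.1]

/-- Reduced lists as a type. -/
abbrev Y (κ ι : Type) [DecidableEq κ] [DecidableEq ι] := {l : List (A κ × S ι) // Red l}

/-- `T a` as a permutation. -/
def Tp (a : A κ) : Equiv.Perm (Y κ ι) where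
  toFun l := ⟨T a l.1, red_T a l.1 l.2⟩
  invFun l := ⟨T a⁻¹ l.1, red_T a⁻¹ l.1 l.2⟩
  left_inv l := by
    apply Subtype.ext
    simp [T_T, T_one]
  right_inv l := by
    apply Subtype.ext
    simp [T_T, T_one]

/-- `Tp` as a homomorphism. -/
def TH : A κ →* Equiv.Perm (Y κ ι) where
  toFun := Tp
  map_one' := by
    ext1 l
    apply Subtype.ext
    exact T_one l.1
  map_mul' a b := by
    ext1 l
    apply Subtype.ext
    exact (T_T a b l.1).symm

/-- `X s` as a permutation. -/
def Xp (s : S ι) : Equiv.Perm (Y κ ι) where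
  toFun l := ⟨X s l.1, red_X s l.1 l.2⟩
  invFun l := ⟨X (iv s) l.1, red_X (iv s) l.1 l.2⟩
  left_inv l := by
    apply Subtype.ext
    exact X_X s l.1 l.2
  right_inv l := by
    apply Subtype.ext
    have := X_X (iv s) l.1 l.2
    rw [iv_iv] at this
    exact this

/-- The action of the free group on reduced lists. -/
def ρ : F κ ι →* Equiv.Perm (Y κ ι) :=
  FreeGroup.lift (fun o => match o with
    | Sum.inl a => Tp (FreeGroup.of a)
    | Sum.inr i => Xp (i, true))

theorem rho_inc (a : A κ) (l : Y κ ι) : ((ρ (inc a) : Equiv.Perm (Y κ ι)) l).1 = T a l.1 := by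
  have h : (ρ : F κ ι →* Equiv.Perm (Y κ ι)).comp inc = TH := by
    apply FreeGroup.ext_hom
    intro a
    simp [ρ, inc, TH]
  have h2 := DFunLike.congr_fun h a
  simp only [MonoidHom.comp_apply] at h2
  rw [h2]
  rfl

theorem rho_xl (s : S ι) (l : Y κ ι) : ((ρ (xl s) : Equiv.Perm (Y κ ι)) l).1 = X s l.1 := by
  obtain ⟨i, b⟩ := s
  cases b with
  | true => simp [ρ, xl, x, Xp]
  | false =>
    have h1 : (ρ (x i : F κ ι) : Equiv.Perm (Y κ ι)) = Xp (i, true) := by
      simp [ρ, x]
    have h2 : (ρ (xl (i, false) : F κ ι) : Equiv.Perm (Y κ ι)) = (Xp (i, true))⁻¹ := by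
      simp [xl, h1]
    rw [h2]
    rfl

/-- The base point. -/
def bs : Y κ ι := ⟨[], trivial⟩

/-- The point of the tree of a group element. -/
def pt (g : F κ ι) : List (A κ × S ι) := ((ρ g : Equiv.Perm (Y κ ι)) bs).1

theorem red_pt (g : F κ ι) : Red (pt g) := ((ρ g : Equiv.Perm (Y κ ι)) bs).2

/-- The group element of a list. -/
def ev : List (A κ × S ι) → F κ ι
  | [] => 1
  | p :: l => inc p.1 * xl p.2 * ev l

theorem rho_mul (g h : F κ ι) (l : Y κ ι) : (ρ (g * h) : Equiv.Perm (Y κ ι)) l = ρ g (ρ h l) := by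
  simp

theorem pt_ev (l : List (A κ × S ι)) (h : Red l) : pt (ev l) = l := by
  induction l with
  | nil => simp [pt, ev, bs]
  | cons p l ih =>
    have h1 := ih h.2
    unfold pt at h1 ⊢
    rw [ev, rho_mul, rho_mul, rho_inc, rho_xl, h1]
    have h2 : Ok p.2 l := h.1
    simp [X, h2, T]

theorem ev_T (l : List (A κ × S ι)) (a : A κ) : ∃ q : A κ, inc a * ev l = ev (T a l) * inc q := by
  cases l with
  | nil => exact ⟨a, by simp [ev, T]⟩
  | cons p l =>
    refine ⟨1, ?_⟩
    simp only [ev, T, map_one, mul_one, map_mul]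
    simp only [mul_assoc]

theorem ev_X (s : S ι) (l : List (A κ × S ι)) : xl s * ev l = ev (X s l) := by
  unfold X
  split_ifs with h
  · simp [ev]
  · cases l with
    | nil => exact absurd trivial h
    | cons p l =>
      have h2 : p.1 = 1 ∧ p.2 = iv s := by
        by_contra h3
        exact h h3
      simp [ev, h2.1, h2.2]

theorem mul_ev (g : F κ ι) : ∀ l : Y κ ι, ∃ q : A κ, g * ev l.1 = ev ((ρ g : Equiv.Perm (Y κ ι)) l).1 * inc q := by
  have key1 : ∀ (a : A κ) (l : Y κ ι), ∃ q : A κ, (inc a : F κ ι) * ev l.1 = ev ((ρ (inc a : F κ ι) : Equiv.Perm (Y κ ι)) l).1 * inc q := by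
    intro a l
    rw [rho_inc]
    exact ev_T l.1 a
  have key2 : ∀ (s : S ι) (l : Y κ ι), ∃ q : A κ, (xl s : F κ ι) * ev l.1 = ev ((ρ (xl s : F κ ι) : Equiv.Perm (Y κ ι)) l).1 * inc q := by
    intro s l
    rw [rho_xl]
    exact ⟨1, by rw [ev_X]; simp⟩
  induction g using FreeGroup.induction_on with
  | C1 => intro l; exact ⟨1, by simp⟩
  | of o =>
    cases o with
    | inl a => simpa [inc] using key1 (FreeGroup.of a)
    | inr i => exact key2 (i, true)
  | inv_of o _ =>
    cases o with
    | inl a => simpa [inc] using key1 (FreeGroup.of a)⁻¹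
    | inr i => exact key2 (i, false)
  | mul g h hg hh =>
    intro l
    obtain ⟨q, hq⟩ := hh l
    obtain ⟨q', hq'⟩ := hg ((ρ h : Equiv.Perm (Y κ ι)) l)
    refine ⟨q' * q, ?_⟩
    rw [mul_assoc, hq, ← mul_assoc, hq', rho_mul, map_mul, mul_assoc]

theorem exists_ev (g : F κ ι) : ∃ q : A κ, g = ev (pt g) * inc q := by
  obtain ⟨q, hq⟩ := mul_ev g bs
  refine ⟨q, ?_⟩
  have : ev (bs : Y κ ι).1 = (1 : F κ ι) := rfl
  rw [this, mul_one] at hq
  exact hq

theorem pt_inc_mul (a : A κ) (g : F κ ι) : pt (inc a * g) = T a (pt g) := by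
  unfold pt
  rw [rho_mul, rho_inc]

theorem pt_mul_inc (a : A κ) (g : F κ ι) : pt (g * inc a) = pt g := by
  unfold pt
  rw [rho_mul]
  congr 2
  apply Subtype.ext
  rw [rho_inc]
  rfl

theorem pt_eq_nil {g : F κ ι} (h : pt g = []) : ∃ q : A κ, g = inc q := by
  obtain ⟨q, hq⟩ := exists_ev g
  rw [h] at hq
  exact ⟨q, by simpa [ev] using hq⟩

theorem inc_injective : Function.Injective (inc : A κ →* F κ ι) := by
  let r : F κ ι →* A κ := FreeGroup.lift (fun o => match o with
    | Sum.inl a => FreeGroup.of a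
    | Sum.inr _ => 1)
  have h : r.comp inc = MonoidHom.id (A κ) := by
    apply FreeGroup.ext_hom
    intro a
    simp [r, inc]
  intro a b hab
  have h1 := congrArg r hab
  have h2 := DFunLike.congr_fun h a
  have h3 := DFunLike.congr_fun h b
  simp only [MonoidHom.comp_apply, MonoidHom.id_apply] at h2 h3
  rw [← h2, ← h3, h1]

/-- The twist on reduced lists, started with the label `c`. -/
def sh (k : ι → A κ × A κ) (c : A κ) : List (A κ × S ι) → List (A κ × S ι)
  | [] => []
  | p :: l => (c * p.1 * (dep k p.2)⁻¹, p.2) :: sh k (arr k p.2) l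

/-- The label at the end. -/
def fn (k : ι → A κ × A κ) (c : A κ) : List (A κ × S ι) → A κ
  | [] => c
  | p :: l => fn k (arr k p.2) l

theorem tw_ev (k : ι → A κ × A κ) (c : A κ) (l : List (A κ × S ι)) :
    inc c * tw k (ev l) = ev (sh k c l) * inc (fn k c l) := by
  induction l generalizing c with
  | nil => simp [ev, sh, fn]
  | cons p l ih =>
    have h := ih (arr k p.2)
    simp only [ev, sh, fn, map_mul, tw_inc, tw_xl, map_inv]
    rw [mul_assoc _ _ (inc (fn k (arr k p.2) l)), ← h]
    simp only [mul_assoc]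

theorem red_sh (k : ι → A κ × A κ) (c : A κ) (l : List (A κ × S ι)) (h : Red l) : Red (sh k c l) := by
  induction l generalizing c with
  | nil => exact h
  | cons p l ih =>
    refine ⟨?_, ih _ h.2⟩
    have h1 : Ok p.2 l := h.1
    cases l with
    | nil => trivial
    | cons q l =>
      intro h3
      apply h1
      have h4 : arr k p.2 * q.1 * (dep k q.2)⁻¹ = 1 := h3.1
      have h5 : q.2 = iv p.2 := h3.2
      refine ⟨?_, h5⟩
      rw [h5, dep_iv] at h4
      have h6 : arr k p.2 * q.1 = arr k p.2 := mul_inv_eq_one.1 h4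
      exact mul_eq_left.1 h6

theorem pt_tw' (k : ι → A κ × A κ) (c : A κ) (g : F κ ι) : pt (inc c * tw k g) = sh k c (pt g) := by
  obtain ⟨q, hq⟩ := exists_ev g
  have h1 := tw_ev k c (pt g)
  have h2 : inc c * tw k g = ev (sh k c (pt g)) * inc (fn k c (pt g) * q) := by
    conv_lhs => rw [hq]
    rw [map_mul, tw_inc, map_mul, ← mul_assoc, ← mul_assoc, h1]
  rw [h2, pt_mul_inc, pt_ev _ (red_sh k c _ (red_pt g))]

/-- If all labels are nontrivial, the fixed elements form the free factor. -/
theorem fixed_iff (k : ι → A κ × A κ) (hk : ∀ i, (k i).1 ≠ 1 ∧ (k i).2 ≠ 1) (g : F κ ι) :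
    tw k g = g ↔ ∃ a, g = inc a := by
  constructor
  · intro h
    apply pt_eq_nil
    have h1 := pt_tw' k 1 g
    rw [map_one, one_mul, h] at h1
    by_contra hne
    obtain ⟨a, l, hl⟩ := List.exists_cons_of_ne_nil hne
    rw [hl] at h1
    simp only [sh, List.cons.injEq] at h1
    have h2 := congrArg Prod.fst h1.1
    simp only [one_mul] at h2
    have h3 : (dep k a.2)⁻¹ = 1 := (mul_eq_left.1 h2.symm)
    have h4 : dep k a.2 = 1 := inv_eq_one.1 h3
    unfold dep at h4
    split_ifs at h4
    · exact (hk a.2.1).1 h4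
    · exact (hk a.2.1).2 h4
  · rintro ⟨a, rfl⟩
    simp

end Pool.Agent.H61.CA
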