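import Mathlib
import Pool.Agent.H61.CA.Rel

/-!
# Path elements
-/

set_option autoImplicit false
set_option linter.unusedSectionVars false

namespace Pool.Agent.H61.CA

variable {κ ι : Type} [DecidableEq κ] [DecidableEq ι]

theorem R_dep_arr (k : ι → A κ × A κ) (s : S ι) : R k (dep k s) (arr k s) := by
  obtain ⟨i, b⟩ := s
  cases b with
  | true => simpa [dep, arr] using R.edge k i
  | false => simpa [dep, arr] using (R.edge k i).symm

theorem R_dep_fst (k : ι → A κ × A κ) (s : S ι) : R k (dep k s) (k s.1).1 := by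
  obtain ⟨i, b⟩ := s
  cases b with
  | true => simpa [dep] using R.refl k (k i).1
  | false => simpa [dep] using (R.edge k i).symm

theorem path_mem_aux (k : ι → A κ × A κ) (d : A κ) : ∀ (n : ℕ) (v : F κ ι) (c : A κ), (pt v).length = n →
    tw k v = (inc c)⁻¹ * v * inc d →
    R k c d ∧ v ∈ Subgroup.closure (Set.range (inc : A κ →* F κ ι) ∪ {g | ∃ j, R k c (k j).1 ∧ g = x j}) := by
  intro n
  induction n with
  | zero =>
    intro v c hn h
    obtain ⟨r, hr⟩ := pt_eq_nil (List.eq_nil_of_length_eq_zero hn)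
    rw [hr, tw_inc, ← map_inv, ← map_mul, ← map_mul] at h
    have h1 := inc_injective h
    have h2 : r⁻¹ * c * r⁻¹⁻¹ = d := by
      have h3 : c * r = r * d := by
        calc c * r = c * (c⁻¹ * r * d) := by rw [← h1]
          _ = r * d := by group
      rw [inv_inv, mul_assoc, h3]
      group
    refine ⟨R.conj k (isConj_iff.2 ⟨r⁻¹, h2⟩), ?_⟩
    rw [hr]
    exact Subgroup.subset_closure (Or.inl ⟨r, rfl⟩)
  | succ n ih =>
    intro v c hn h
    obtain ⟨a, l, hl⟩ := List.exists_cons_of_ne_nil (l := pt v) (by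
      intro h0
      rw [h0] at hn
      simp at hn)
    obtain ⟨r, hr⟩ := exists_ev v
    rw [hl] at hr
    have h4 : c * a.1 * (dep k a.2)⁻¹ = a.1 := by
      have h5 := pt_tw' k c v
      have h6 : inc c * tw k v = v * inc d := by
        rw [h]
        group
      rw [h6, pt_mul_inc, hl] at h5
      simp only [sh, List.cons.injEq] at h5
      have h7 := congrArg Prod.fst h5.1
      exact h7.symm
    have hcm : c * a.1 = a.1 * dep k a.2 := by
      calc c * a.1 = c * a.1 * (dep k a.2)⁻¹ * dep k a.2 := by group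
        _ = a.1 * dep k a.2 := by rw [h4]
    have hconj : R k c (dep k a.2) := by
      refine R.conj k (isConj_iff.2 ⟨a.1⁻¹, ?_⟩)
      rw [inv_inv, mul_assoc, hcm]
      group
    have hw1 : v = inc a.1 * xl a.2 * (ev l * inc r) := by
      rw [hr]
      simp [ev, mul_assoc]
    have hred : Red l := by
      have := red_pt v
      rw [hl] at this
      exact this.2
    have h5 : tw k (ev l * inc r) = (inc (arr k a.2))⁻¹ * (ev l * inc r) * inc d := by
      have h6 := h
      rw [hw1, map_mul, map_mul, tw_inc, tw_xl] at h6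
      have h9 : (inc c : F κ ι)⁻¹ * inc a.1 = inc a.1 * (inc (dep k a.2))⁻¹ := by
        rw [← map_inv, ← map_inv, ← map_mul, ← map_mul]
        congr 1
        calc c⁻¹ * a.1 = c⁻¹ * (a.1 * dep k a.2) * (dep k a.2)⁻¹ := by group
          _ = c⁻¹ * (c * a.1) * (dep k a.2)⁻¹ := by rw [hcm]
          _ = a.1 * (dep k a.2)⁻¹ := by group
      have h7 : inc (arr k a.2) * tw k (ev l * inc r) = (ev l * inc r) * inc d := by
        have h8 : inc a.1 * (inc (dep k a.2))⁻¹ * xl a.2 * (inc (arr k a.2) * tw k (ev l * inc r)) =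
            inc a.1 * (inc (dep k a.2))⁻¹ * xl a.2 * ((ev l * inc r) * inc d) := by
          calc _ = inc a.1 * ((inc (dep k a.2))⁻¹ * xl a.2 * inc (arr k a.2)) * tw k (ev l * inc r) := by
                simp only [mul_assoc]
            _ = (inc c)⁻¹ * (inc a.1 * xl a.2 * (ev l * inc r)) * inc d := h6
            _ = ((inc c)⁻¹ * inc a.1) * xl a.2 * ((ev l * inc r) * inc d) := by
                simp only [mul_assoc]
            _ = _ := by rw [h9]
        exact mul_left_cancel h8
      calc tw k (ev l * inc r) = (inc (arr k a.2))⁻¹ * (inc (arr k a.2) * tw k (ev l * inc r)) := by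
            rw [← mul_assoc, inv_mul_cancel, one_mul]
        _ = (inc (arr k a.2))⁻¹ * ((ev l * inc r) * inc d) := by rw [h7]
        _ = _ := by simp only [mul_assoc]
    have hlen : (pt (ev l * inc r)).length = n := by
      rw [pt_mul_inc, pt_ev l hred]
      rw [hl] at hn
      simpa using hn
    obtain ⟨h10, h11⟩ := ih (ev l * inc r) (arr k a.2) hlen h5
    have h12 : R k c (arr k a.2) := hconj.trans (R_dep_arr k a.2)
    refine ⟨h12.trans h10, ?_⟩
    have h13 : ev l * inc r ∈ Subgroup.closure (Set.range (inc : A κ →* F κ ι) ∪ {g | ∃ j, R k c (k j).1 ∧ g = x j}) := by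
      refine Subgroup.closure_mono ?_ h11
      apply Set.union_subset_union_right
      rintro g ⟨j, hj, rfl⟩
      exact ⟨j, h12.trans hj, rfl⟩
    have h14 : x a.2.1 ∈ Subgroup.closure (Set.range (inc : A κ →* F κ ι) ∪ {g | ∃ j, R k c (k j).1 ∧ g = x j}) :=
      Subgroup.subset_closure (Or.inr ⟨a.2.1, hconj.trans (R_dep_fst k a.2), rfl⟩)
    have h15 : xl a.2 ∈ Subgroup.closure (Set.range (inc : A κ →* F κ ι) ∪ {g | ∃ j, R k c (k j).1 ∧ g = x j}) := by
      unfold xl
      split_ifs
      · exact h14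
      · exact Subgroup.inv_mem _ h14
    rw [hw1]
    exact Subgroup.mul_mem _ (Subgroup.mul_mem _
      (Subgroup.subset_closure (Or.inl ⟨a.1, rfl⟩)) h15) h13

/-- ROW E1a (port of `path_mem` in `Pool/Agent/H61/CT/E1.lean`, with `inc c` in place of `t ^ c`). Proof: `inc c * tw k v = v * inc d`, so
`sh k c (pt v) = pt v` (`pt_tw'`, `pt_mul_inc`). Induction on the list `pt v` (generalise `v c`): if it is empty, `v = inc q` (`pt_eq_nil`)
and `c * q = q * d`, so `c` and `d` are conjugate. If it is `(m, s) :: l` then `c * m * (dep k s)⁻¹ = m`, so `c` is conjugate to `dep k s`;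
write `v = inc m * xl s * v'`, then `tw k v' = (inc (arr k s))⁻¹ * v' * inc d` and `pt v' = l`; `dep k s` and `arr k s` are the two
ends of an edge (`R.edge`), and `xl s` is `x s.1` or its inverse with `R k c (k s.1).1`. -/
theorem path_mem (k : ι → A κ × A κ) (v : F κ ι) (c d : A κ) (h : tw k v = (inc c)⁻¹ * v * inc d) :
    R k c d ∧ v ∈ Subgroup.closure (Set.range (inc : A κ →* F κ ι) ∪ {g | ∃ j, R k c (k j).1 ∧ g = x j}) :=
  path_mem_aux k d _ v c rfl h

/-- ROW E1b. Proof: `Relation.EqvGen` induction: for conjugate `c`, `d` (`g * c * g⁻¹ = d`, `isConj_iff`) take `inc g⁻¹`; for an edge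
take `x i`; inverse for symmetry; product for transitivity. -/
theorem exists_path (k : ι → A κ × A κ) (c d : A κ) (h : R k c d) : ∃ v : F κ ι, tw k v = (inc c)⁻¹ * v * inc d := by
  unfold R at h
  induction h with
  | rel a b hab =>
    rcases hab with hab | ⟨i, rfl, rfl⟩
    · obtain ⟨g, hg⟩ := isConj_iff.1 hab
      refine ⟨inc g⁻¹, ?_⟩
      rw [tw_inc, ← map_inv, ← map_mul, ← map_mul, ← hg]
      congr 1
      group
    · exact ⟨x i, by simp⟩
  | refl a => exact ⟨1, by simp⟩
  | symm a b _ ih =>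
    obtain ⟨v, hv⟩ := ih
    refine ⟨v⁻¹, ?_⟩
    rw [map_inv, hv]
    group
  | trans a b c _ _ ih1 ih2 =>
    obtain ⟨v, hv⟩ := ih1
    obtain ⟨w, hw⟩ := ih2
    refine ⟨v * w, ?_⟩
    rw [map_mul, hv, hw]
    group

end Pool.Agent.H61.CA
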