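import Mathlib
import Pool.Agent.H61.CA.G1
import Pool.Agent.H61.CA.E2

/-!
# Labels up to conjugacy
-/

set_option autoImplicit false
set_option linter.unusedSectionVars false

namespace Pool.Agent.H61.CA

variable {κ ι : Type} [DecidableEq κ] [DecidableEq ι]

/-- Conjugacy classes of the free factor. -/
abbrev Λ (κ : Type) := ConjClasses (A κ)

/-- A representative of a class. -/
noncomputable def rep (c : Λ κ) : A κ := (Quotient.exists_rep c).choose

theorem mk_rep (c : Λ κ) : ConjClasses.mk (rep c) = c := (Quotient.exists_rep c).choose_spec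

theorem isConj_rep (a : A κ) : IsConj a (rep (ConjClasses.mk a)) := by
  rw [← ConjClasses.mk_eq_mk_iff_isConj, mk_rep]

/-- Representatives of the labels. -/
noncomputable def tk (k : ι → Λ κ × Λ κ) : ι → A κ × A κ := fun i => (rep (k i).1, rep (k i).2)

/-- Classes of the labels. -/
def kc (k : ι → A κ × A κ) : ι → Λ κ × Λ κ := fun i => (ConjClasses.mk (k i).1, ConjClasses.mk (k i).2)

theorem kc_tk (k : ι → Λ κ × Λ κ) : kc (tk k) = k := by
  funext i
  exact Prod.ext (mk_rep _) (mk_rep _)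

/-- The label graph on the classes. -/
def RL (k : ι → Λ κ × Λ κ) : Λ κ → Λ κ → Prop := Relation.EqvGen (fun a b => ∃ i, (k i).1 = a ∧ (k i).2 = b)

theorem RL.refl (k : ι → Λ κ × Λ κ) (a : Λ κ) : RL k a a := Relation.EqvGen.refl a

theorem RL.symm {k : ι → Λ κ × Λ κ} {a b : Λ κ} (h : RL k a b) : RL k b a := Relation.EqvGen.symm _ _ h

theorem RL.trans {k : ι → Λ κ × Λ κ} {a b c : Λ κ} (h : RL k a b) (h' : RL k b c) : RL k a c :=
  Relation.EqvGen.trans _ _ _ h h'

theorem RL.edge (k : ι → Λ κ × Λ κ) (i : ι) : RL k (k i).1 (k i).2 := Relation.EqvGen.rel _ _ ⟨i, rfl, rfl⟩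

/-- Number of edges in the class of `a`. -/
noncomputable def cntL (k : ι → Λ κ × Λ κ) (a : Λ κ) : ℕ := Nat.card {i : ι // RL k a (k i).1}

theorem R_iff (k : ι → A κ × A κ) (c d : A κ) : R k c d ↔ RL (kc k) (ConjClasses.mk c) (ConjClasses.mk d) := by
  constructor
  · intro h
    unfold R at h
    induction h with
    | rel a b hab =>
      rcases hab with hab | ⟨i, rfl, rfl⟩
      · rw [ConjClasses.mk_eq_mk_iff_isConj.2 hab]
        exact RL.refl _ _
      · exact RL.edge (kc k) i
    | refl a => exact RL.refl _ _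
    | symm a b _ ih => exact ih.symm
    | trans a b c _ _ ih ih' => exact ih.trans ih'
  · have main : ∀ p q : Λ κ, RL (kc k) p q → ∀ c d : A κ, ConjClasses.mk c = p → ConjClasses.mk d = q → R k c d := by
      intro p q h
      unfold RL at h
      induction h with
      | rel p q hpq =>
        obtain ⟨i, h1, h2⟩ := hpq
        intro c d hc hd
        have h3 : IsConj c (k i).1 := ConjClasses.mk_eq_mk_iff_isConj.1 (hc.trans h1.symm)
        have h4 : IsConj (k i).2 d := ConjClasses.mk_eq_mk_iff_isConj.1 (h2.trans hd.symm)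
        exact ((R.conj k h3).trans (R.edge k i)).trans (R.conj k h4)
      | refl p =>
        intro c d hc hd
        exact R.conj k (ConjClasses.mk_eq_mk_iff_isConj.1 (hc.trans hd.symm))
      | symm p q _ ih =>
        intro c d hc hd
        exact (ih d c hd hc).symm
      | trans p q r _ _ ih ih' =>
        intro c d hc hd
        exact (ih c (rep q) hc (mk_rep q)).trans (ih' (rep q) d (mk_rep q) hd)
    intro h
    exact main _ _ h c d rfl rfl

theorem cnt_eq (k : ι → A κ × A κ) (c : A κ) : cnt k c = cntL (kc k) (ConjClasses.mk c) := by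
  unfold cnt cntL
  exact Nat.card_congr (Equiv.subtypeEquivRight fun i => R_iff k c (k i).1)

/-- Equivalence of label data given by classes. -/
def Eq1 (k k' : ι → Λ κ × Λ κ) : Prop := Eq0 (tk k) (tk k')

theorem Eq1.refl (k : ι → Λ κ × Λ κ) : Eq1 k k := Eq0.refl _

theorem Eq1.symm {k k' : ι → Λ κ × Λ κ} (h : Eq1 k k') : Eq1 k' k := Eq0.symm h

theorem Eq1.trans {k k' k'' : ι → Λ κ × Λ κ} (h : Eq1 k k') (h' : Eq1 k' k'') : Eq1 k k'' := Eq0.trans h h'

theorem eq1_R {k k' : ι → Λ κ × Λ κ} (h : Eq1 k k') (a b : Λ κ) (hab : RL k a b) : RL k' a b := by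
  have h1 : R (tk k) (rep a) (rep b) := by
    rw [R_iff, kc_tk, mk_rep, mk_rep]
    exact hab
  have h2 := eq0_R h _ _ h1
  rw [R_iff, kc_tk, mk_rep, mk_rep] at h2
  exact h2

theorem eq1_cnt_le [Fintype ι] {k k' : ι → Λ κ × Λ κ} (h : Eq1 k k') (a : Λ κ) : cntL k a ≤ cntL k' a := by
  have h2 := eq0_cnt_le h (rep a)
  rw [cnt_eq, cnt_eq, kc_tk, kc_tk, mk_rep] at h2
  exact h2

theorem tk_update (k : ι → Λ κ × Λ κ) (i : ι) (v : Λ κ × Λ κ) :
    tk (Function.update k i v) = Function.update (tk k) i (rep v.1, rep v.2) := by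
  funext j
  by_cases h : j = i
  · subst h
    simp [tk]
  · simp [tk, h]

theorem eq1_flip (k : ι → Λ κ × Λ κ) (i : ι) : Eq1 k (Function.update k i ((k i).2, (k i).1)) := by
  unfold Eq1
  rw [tk_update]
  exact eq0_flip (tk k) i

theorem eq1_slide (k : ι → Λ κ × Λ κ) (i j : ι) (hij : i ≠ j) (h : (k j).2 = (k i).1) :
    Eq1 k (Function.update k i ((k j).1, (k i).2)) := by
  unfold Eq1
  rw [tk_update]
  exact eq0_slide (tk k) i j hij (by simp [tk, h])

theorem eq1_perm (k : ι → Λ κ × Λ κ) (σ : Equiv.Perm ι) : Eq1 k (k ∘ σ) := eq0_perm (tk k) σ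

theorem eq0_kc (k : ι → A κ × A κ) : Eq0 k (tk (kc k)) := by
  have h1 : ∀ i, ∃ g : A κ, g * (k i).1 * g⁻¹ = rep (ConjClasses.mk (k i).1) := fun i => isConj_iff.1 (isConj_rep _)
  have h2 : ∀ i, ∃ g : A κ, g * (k i).2 * g⁻¹ = rep (ConjClasses.mk (k i).2) := fun i => isConj_iff.1 (isConj_rep _)
  choose g hg using h1
  choose h hh using h2
  have h3 := eq0_conj k g h
  have h4 : (fun i => (g i * (k i).1 * (g i)⁻¹, h i * (k i).2 * (h i)⁻¹)) = tk (kc k) := by
    funext i
    exact Prod.ext (hg i) (hh i)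
  rw [h4] at h3
  exact h3

end Pool.Agent.H61.CA
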