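import Mathlib
import Pool.Agent.H61.CA.L

/-!
# Star forms whose sections agree
-/

set_option autoImplicit false
set_option linter.unusedSectionVars false

namespace Pool.Agent.H61.CA

variable {κ ι : Type} [DecidableEq κ] [DecidableEq ι]

/-- Star forms whose sections agree. -/
theorem star_extra (β β' : ι → Λ κ) (ctr : Λ κ → Λ κ) (s : Λ κ → ι) (hs : ∀ y, y ≠ ctr y → β (s y) = y)
    (hs' : ∀ y, y ≠ ctr y → β' (s y) = y) (hctr : ∀ i, ctr (β' i) = ctr (β i)) :
    Eq1 (fun i => (ctr (β i), β i)) (fun i => (ctr (β' i), β' i)) := by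
  classical
  let g : Λ κ → F κ ι := fun v => if v = ctr v then 1 else x (s v)
  have hg : ∀ v, tw (tk (fun i => (ctr (β' i), β' i))) (g v) = (inc (rep (ctr v)))⁻¹ * g v * inc (rep v) := by
    intro v
    by_cases hv : v = ctr v
    · have h1 : g v = 1 := if_pos hv
      rw [h1, map_one, ← hv, mul_one, inv_mul_cancel]
    · have h1 : g v = x (s v) := if_neg hv
      rw [h1, tw_x]
      simp only [tk]
      rw [hs' v hv]
  have hgJ : ∀ v, g v ∈ Subgroup.closure {a : F κ ι | ∃ j ∈ {i | ∃ y, y ≠ ctr y ∧ i = s y}, a = x j} := by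
    intro v
    by_cases hv : v = ctr v
    · have h1 : g v = 1 := if_pos hv
      rw [h1]
      exact one_mem _
    · have h1 : g v = x (s v) := if_neg hv
      rw [h1]
      exact Subgroup.subset_closure ⟨s v, ⟨v, hv, rfl⟩, rfl⟩
  refine eq0_extra _ _ {i | ∃ y, y ≠ ctr y ∧ i = s y} (fun i => (g (β' i))⁻¹ * g (β i)) ?_ ?_ ?_
  · intro i
    exact mul_mem (inv_mem (hgJ _)) (hgJ _)
  · rintro j ⟨y, hy, rfl⟩
    simp only [tk]
    rw [hs y hy, hs' y hy]
  · intro i _
    rw [map_mul, map_mul, map_inv, hg, hg, tw_x, hctr i]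
    simp only [tk, mul_inv_rev, inv_inv, mul_assoc]
    rw [hctr i]
    simp

end Pool.Agent.H61.CA
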