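import Mathlib
import Pool.Agent.H61.CA.G3a
import Pool.Agent.H61.CA.G3b

/-!
# Two star forms with the same classes and counts
-/

set_option autoImplicit false
set_option linter.unusedSectionVars false

namespace Pool.Agent.H61.CA

variable {κ ι : Type} [DecidableEq κ] [DecidableEq ι]

/-- ROW G3c. Two star forms with the same classes and counts are equivalent. Proof: `(k i).1 = ctr (k i).2` (by `hc1` and `RL.edge`), so
`k = fun i => (ctr (β i), β i)` with `β i = (k i).2`, and the same for `k'`, `β'`. If `y ≠ ctr y` then `y = β i` for some `i`: otherwise `y`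
is not an end of an edge of `k` (a first end is its own `ctr`), so `RL k y b` implies `b = y` (`Relation.EqvGen` induction on
`a = y ↔ b = y`), against `hc2 y`. This gives sections `s` and `s'` (choice; if there is no `y` with `y ≠ ctr y`, any function; if
`ι` is empty then `k = k'`). As `RL k a b ↔ ctr a = ctr b`, `cntL` is the number in `hcnt` of `exists_perm`. Then `exists_perm`,
`eq1_perm` for `k'` and `star_extra` for `β` and `β' ∘ σ`. -/
theorem star_star [Fintype ι] (k k' : ι → Λ κ × Λ κ) (ctr : Λ κ → Λ κ) (hc1 : ∀ a b, RL k a b → ctr a = ctr b)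
    (hc2 : ∀ a, RL k a (ctr a)) (hR : ∀ a b, RL k a b ↔ RL k' a b) (hcnt : ∀ a, cntL k a = cntL k' a)
    (h1 : ∀ i, (k i).1 = ctr (k i).1) (h2 : ∀ i, (k' i).1 = ctr (k' i).1) : Eq1 k k' := by
  classical
  rcases isEmpty_or_nonempty ι with hι | hι
  · have : k = k' := funext fun i => (hι.false i).elim
    rw [this]
    exact Eq1.refl _
  have hRc : ∀ a b, RL k a b ↔ ctr a = ctr b := by
    intro a b
    refine ⟨hc1 a b, fun h => (hc2 a).trans ?_⟩
    rw [h]
    exact (hc2 b).symm
  -- general facts on a star form
  have gen : ∀ m : ι → Λ κ × Λ κ, (∀ a b, RL m a b ↔ ctr a = ctr b) → (∀ i, (m i).1 = ctr (m i).1) →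
      (m = fun i => (ctr (m i).2, (m i).2)) ∧
      (∃ s : Λ κ → ι, ∀ y, y ≠ ctr y → (m (s y)).2 = y) ∧
      ∀ c, Nat.card {i // ctr (m i).2 = c} = if ctr c = c then cntL m c else 0 := by
    intro m hm hm1
    have hA : ∀ i, (m i).1 = ctr (m i).2 := fun i => (hm1 i).trans ((hm _ _).1 (RL.edge m i))
    refine ⟨funext fun i => Prod.ext (hA i) rfl, ?_, ?_⟩
    · have hB : ∀ y, y ≠ ctr y → ∃ i, (m i).2 = y := by
        intro y hy
        by_contra hcon
        push Not at hcon
        have key : ∀ a b, RL m a b → (a = y ↔ b = y) := by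
          intro a b hab
          induction hab with
          | rel a b hab =>
            obtain ⟨i, h3, h4⟩ := hab
            constructor
            · intro h5
              exfalso
              apply hy
              rw [← h5, ← h3]
              exact hm1 i
            · intro h5
              exact absurd (h4.trans h5) (hcon i)
          | refl a => exact Iff.rfl
          | symm a b _ ih => exact ih.symm
          | trans a b c _ _ ih ih' => exact ih.trans ih'
        have h3 : ctr (ctr y) = ctr y := by
          have h4 : RL m y (ctr y) ↔ ctr y = ctr (ctr y) := hm y (ctr y)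
          have h5 : RL k y (ctr y) := hc2 y
          exact ((hRc _ _).1 h5).symm
        have h4 : RL m y (ctr y) := (hm _ _).2 h3.symm
        exact hy ((key _ _ h4).1 rfl).symm
      refine ⟨fun y => if h : ∃ i, (m i).2 = y then h.choose else Classical.arbitrary ι, fun y hy => ?_⟩
      simp only
      rw [dif_pos (hB y hy)]
      exact (hB y hy).choose_spec
    · intro c
      split_ifs with hc
      · unfold cntL
        refine Nat.card_congr (Equiv.subtypeEquivRight fun i => ?_)
        rw [hm, ← hm1 i, hA i, hc]
        exact eq_comm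
      · have : IsEmpty {i // ctr (m i).2 = c} := by
          refine ⟨fun i => hc ?_⟩
          have h3 := hm1 i.1
          rw [hA i.1, i.2] at h3
          exact h3.symm
        exact Nat.card_of_isEmpty
  obtain ⟨e1, ⟨s, hs⟩, hn1⟩ := gen k hRc h1
  obtain ⟨e2, ⟨s', hs'⟩, hn2⟩ := gen k' (fun a b => (hR a b).symm.trans (hRc a b)) h2
  obtain ⟨σ, hσ1, hσ2⟩ := exists_perm (fun i => (k i).2) (fun i => (k' i).2) ctr s s' hs hs' (by
    intro c
    rw [hn1 c, hn2 c, hcnt c])
  have h3 := star_extra (fun i => (k i).2) (fun i => (k' (σ i)).2) ctr s hs (by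
    intro y hy
    rw [hσ1 y hy]
    exact hs' y hy) hσ2
  have h4 : (fun i => (ctr (k' (σ i)).2, (k' (σ i)).2)) = k' ∘ σ := by
    funext i
    exact (congrFun e2 (σ i)).symm
  rw [← e1] at h3
  rw [h4] at h3
  exact h3.trans (eq1_perm k' σ).symm

end Pool.Agent.H61.CA
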