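import Mathlib
import Pool.Agent.H61.CA.G2
import Pool.Agent.H61.CA.G3

/-!
# Equal classes and counts imply equivalence
-/

set_option autoImplicit false
set_option linter.unusedSectionVars false

namespace Pool.Agent.H61.CA

variable {κ ι : Type} [DecidableEq κ] [DecidableEq ι]

theorem eq1_of_R [Fintype ι] (k k' : ι → Λ κ × Λ κ) (hR : ∀ a b, RL k a b ↔ RL k' a b) (hcnt : ∀ a, cntL k a = cntL k' a) : Eq1 k k' := by
  classical
  let st : Setoid (Λ κ) := ⟨RL k, fun a => RL.refl k a, fun h => h.symm, fun h h' => h.trans h'⟩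
  let ctr : Λ κ → Λ κ := fun a => (Quotient.mk st a).out
  have hc1 : ∀ a b, RL k a b → ctr a = ctr b := by
    intro a b h
    show (Quotient.mk st a).out = (Quotient.mk st b).out
    rw [Quotient.sound (s := st) h]
  have hc2 : ∀ a, RL k a (ctr a) := by
    intro a
    exact RL.symm (Quotient.mk_out (s := st) a)
  obtain ⟨k₁, e1, s1⟩ := exists_star k ctr hc1 hc2
  obtain ⟨k₂, e2, s2⟩ := exists_star k' ctr (fun a b h => hc1 a b ((hR a b).2 h)) (fun a => (hR _ _).1 (hc2 a))
  have r1 : ∀ a b, RL k a b ↔ RL k₁ a b := fun a b => ⟨eq1_R e1 a b, eq1_R e1.symm a b⟩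
  have r2 : ∀ a b, RL k' a b ↔ RL k₂ a b := fun a b => ⟨eq1_R e2 a b, eq1_R e2.symm a b⟩
  have c1 : ∀ a, cntL k a = cntL k₁ a := fun a => le_antisymm (eq1_cnt_le e1 a) (eq1_cnt_le e1.symm a)
  have c2 : ∀ a, cntL k' a = cntL k₂ a := fun a => le_antisymm (eq1_cnt_le e2 a) (eq1_cnt_le e2.symm a)
  have e3 : Eq1 k₁ k₂ := by
    refine star_star k₁ k₂ ctr (fun a b h => hc1 a b ((r1 a b).2 h)) (fun a => (r1 _ _).1 (hc2 a)) ?_ ?_ s1 s2
    · intro a b
      rw [← r1, hR, r2]
    · intro a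
      rw [← c1, hcnt, c2]
  exact (e1.trans e3).trans e2.symm

/-- Equal classes and counts imply equivalence. -/
theorem eq0_of_R [Fintype ι] (k k' : ι → A κ × A κ) (hR : ∀ a b, R k a b ↔ R k' a b) (hcnt : ∀ a, cnt k a = cnt k' a) :
    Eq0 k k' := by
  have h1 : Eq1 (kc k) (kc k') := by
    refine eq1_of_R _ _ ?_ ?_
    · intro a b
      have h := hR (rep a) (rep b)
      rw [R_iff, R_iff, mk_rep, mk_rep] at h
      exact h
    · intro a
      have h := hcnt (rep a)
      rw [cnt_eq, cnt_eq, mk_rep] at h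
      exact h
  exact ((eq0_kc k).trans h1).trans (eq0_kc k').symm

end Pool.Agent.H61.CA
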