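import Mathlib
import Pool.Agent.H61.CA.SC

/-!
# The classification
-/

set_option autoImplicit false
set_option linter.unusedSectionVars false

namespace Pool.Agent.H61.CA

variable {κ ι : Type} [DecidableEq κ] [DecidableEq ι]

/-- The extension of an endomorphism of the free factor by the identity on the other generators. -/
def ex (α : A κ →* A κ) : F κ ι →* F κ ι :=
  FreeGroup.lift (fun o => match o with
    | Sum.inl a => inc (α (FreeGroup.of a))
    | Sum.inr i => x i)

@[simp] theorem ex_inc (α : A κ →* A κ) (a : A κ) : ex α (inc a : F κ ι) = inc (α a) := by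
  have h : (ex α).comp (inc : A κ →* F κ ι) = inc.comp α := by
    apply FreeGroup.ext_hom
    intro a
    simp [ex, inc]
  exact DFunLike.congr_fun h a

@[simp] theorem ex_x (α : A κ →* A κ) (i : ι) : ex α (x i : F κ ι) = x i := by
  simp [ex, x]

theorem ex_ex (α β : A κ →* A κ) (h : ∀ a, α (β a) = a) (g : F κ ι) : ex α (ex β g) = g := by
  have h1 : (ex α).comp (ex β) = MonoidHom.id (F κ ι) := by
    apply hom_ext'
    · intro a
      simp [h]
    · intro i
      simp
  exact DFunLike.congr_fun h1 g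

/-- The extension as an automorphism. -/
def exE (α : A κ ≃* A κ) : F κ ι ≃* F κ ι where
  toFun := ex α.toMonoidHom
  invFun := ex α.symm.toMonoidHom
  left_inv := ex_ex _ _ (fun a => by simp)
  right_inv := ex_ex _ _ (fun a => by simp)
  map_mul' := map_mul _

theorem exE_apply (α : A κ ≃* A κ) (g : F κ ι) : exE α g = ex α.toMonoidHom g := rfl

theorem exE_symm_apply (α : A κ ≃* A κ) (g : F κ ι) : (exE α).symm g = ex α.symm.toMonoidHom g := rfl

/-- The labels moved by an automorphism. -/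
def mp (α : A κ ≃* A κ) (k : ι → A κ × A κ) : ι → A κ × A κ := fun i => (α (k i).1, α (k i).2)

theorem mp_mp (α : A κ ≃* A κ) (k : ι → A κ × A κ) : mp α.symm (mp α k) = k := by
  funext i
  simp [mp]

theorem tw_mp (α : A κ ≃* A κ) (k : ι → A κ × A κ) (g : F κ ι) : tw (mp α k) (exE α g) = exE α (tw k g) := by
  have h : (tw (mp α k)).comp (ex α.toMonoidHom) = (ex α.toMonoidHom).comp (tw k : F κ ι →* F κ ι) := by
    apply hom_ext'
    · intro a
      simp
    · intro i
      simp [mp]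
  exact DFunLike.congr_fun h g

theorem R_mp_of (α : A κ ≃* A κ) (k : ι → A κ × A κ) (c d : A κ) (h : R k c d) : R (mp α k) (α c) (α d) := by
  unfold R at h
  induction h with
  | rel a b hab =>
    rcases hab with hab | ⟨i, rfl, rfl⟩
    · obtain ⟨g, hg⟩ := isConj_iff.1 hab
      apply R.conj
      rw [isConj_iff]
      refine ⟨α g, ?_⟩
      rw [← hg]
      simp
    · exact R.edge (mp α k) i
  | refl a => exact R.refl _ _
  | symm a b _ ih => exact ih.symm
  | trans a b c _ _ ih ih' => exact ih.trans ih'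

theorem R_mp (α : A κ ≃* A κ) (k : ι → A κ × A κ) (c d : A κ) : R (mp α k) (α c) (α d) ↔ R k c d := by
  constructor
  · intro h
    have h1 := R_mp_of α.symm _ _ _ h
    rw [mp_mp, MulEquiv.symm_apply_apply, MulEquiv.symm_apply_apply] at h1
    exact h1
  · exact R_mp_of α k c d

theorem cnt_mp (α : A κ ≃* A κ) (k : ι → A κ × A κ) (c : A κ) : cnt (mp α k) (α c) = cnt k c := by
  unfold cnt
  exact Nat.card_congr (Equiv.subtypeEquivRight fun i => R_mp α k c (k i).1)

/-- An automorphism that intertwines the two maps takes the free factor onto itself. -/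
theorem exists_alpha (k k' : ι → A κ × A κ) (hk : ∀ i, (k i).1 ≠ 1 ∧ (k i).2 ≠ 1) (hk' : ∀ i, (k' i).1 ≠ 1 ∧ (k' i).2 ≠ 1)
    (θ : F κ ι ≃* F κ ι) (hθ : ∀ g, θ (tw k g) = tw k' (θ g)) :
    ∃ α : A κ ≃* A κ, ∀ a, θ (inc a) = inc (α a) := by
  have h1 : ∀ a : A κ, ∃ b : A κ, θ (inc a) = inc b := by
    intro a
    rw [← fixed_iff k' hk', ← hθ, tw_inc]
  have h2 : ∀ a : A κ, ∃ b : A κ, θ.symm (inc a) = inc b := by
    intro a
    rw [← fixed_iff k hk, MulEquiv.eq_symm_apply, hθ, MulEquiv.apply_symm_apply, tw_inc]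
  choose β hβ using h1
  choose γ hγ using h2
  refine ⟨{ toFun := β, invFun := γ, left_inv := ?_, right_inv := ?_, map_mul' := ?_ }, ?_⟩
  · intro a
    apply inc_injective (κ := κ) (ι := ι)
    rw [← hγ, ← hβ, MulEquiv.symm_apply_apply]
  · intro a
    apply inc_injective (κ := κ) (ι := ι)
    rw [← hβ, ← hγ, MulEquiv.apply_symm_apply]
  · intro a b
    apply inc_injective (κ := κ) (ι := ι)
    rw [map_mul, ← hβ, ← hβ, ← hβ, map_mul, map_mul]
  · intro a
    exact hβ a

/-- Conjugacy by an automorphism that induces `α` on the free factor. -/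
theorem eq0_iff (α : A κ ≃* A κ) (k k' : ι → A κ × A κ) :
    Eq0 (mp α k) k' ↔ ∃ θ : F κ ι ≃* F κ ι, (∀ a, θ (inc a) = inc (α a)) ∧ ∀ g, θ (tw k g) = tw k' (θ g) := by
  constructor
  · rintro ⟨η, e1, e2⟩
    refine ⟨(exE α).trans η, ?_, ?_⟩
    · intro a
      show η (exE α (inc a)) = inc (α a)
      rw [exE_apply, ex_inc, e1]
      rfl
    · intro g
      show η (exE α (tw k g)) = tw k' (η (exE α g))
      rw [← tw_mp, e2]
  · rintro ⟨θ, e1, e2⟩
    refine ⟨(exE α).symm.trans θ, ?_, ?_⟩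
    · intro a
      show θ ((exE α).symm (inc a)) = inc a
      rw [exE_symm_apply, ex_inc, e1]
      simp
    · intro g
      show θ ((exE α).symm (tw (mp α k) g)) = tw k' (θ ((exE α).symm g))
      obtain ⟨g', rfl⟩ := (exE α).surjective g
      rw [tw_mp, MulEquiv.symm_apply_apply, MulEquiv.symm_apply_apply, e2]

/-- The classification relative to the free factor. -/
theorem classification_rel [Fintype ι] (k k' : ι → A κ × A κ) (α : A κ ≃* A κ) :
    (∃ θ : F κ ι ≃* F κ ι, (∀ a, θ (inc a) = inc (α a)) ∧ ∀ g, θ (tw k g) = tw k' (θ g)) ↔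
      (∀ c d, R k c d ↔ R k' (α c) (α d)) ∧ ∀ c, cnt k c = cnt k' (α c) := by
  rw [← eq0_iff]
  constructor
  · intro h
    refine ⟨?_, ?_⟩
    · intro c d
      rw [← R_mp α k c d]
      exact ⟨eq0_R h _ _, eq0_R h.symm _ _⟩
    · intro c
      rw [← cnt_mp α k c]
      exact le_antisymm (eq0_cnt_le h _) (eq0_cnt_le h.symm _)
  · rintro ⟨h1, h2⟩
    apply eq0_of_R
    · intro p q
      obtain ⟨c, rfl⟩ := α.surjective p
      obtain ⟨d, rfl⟩ := α.surjective q
      rw [R_mp, h1]
    · intro p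
      obtain ⟨c, rfl⟩ := α.surjective p
      rw [cnt_mp, h2]

/-- The classification. -/
theorem classification [Fintype ι] (k k' : ι → A κ × A κ) (hk : ∀ i, (k i).1 ≠ 1 ∧ (k i).2 ≠ 1)
    (hk' : ∀ i, (k' i).1 ≠ 1 ∧ (k' i).2 ≠ 1) :
    (∃ θ : F κ ι ≃* F κ ι, ∀ g, θ (tw k g) = tw k' (θ g)) ↔
      ∃ α : A κ ≃* A κ, (∀ c d, R k c d ↔ R k' (α c) (α d)) ∧ ∀ c, cnt k c = cnt k' (α c) := by
  constructor
  · rintro ⟨θ, hθ⟩
    obtain ⟨α, hα⟩ := exists_alpha k k' hk hk' θ hθ
    exact ⟨α, (classification_rel k k' α).1 ⟨θ, hα, hθ⟩⟩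
  · rintro ⟨α, hα⟩
    obtain ⟨θ, _, hθ⟩ := (classification_rel k k' α).2 hα
    exact ⟨θ, hθ⟩

end Pool.Agent.H61.CA
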